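import Pool.Agent.H85L.Main

/-!
# Relativizations of the inclusions in the chain DLBA, LBA, E, NE
-/

set_option autoImplicit false

namespace Pool.Agent.Results.MP_b7da94_lc.GenericOracles

open H85L

/-- There is an oracle relative to which the four classes coincide; an inclusion which holds for
`L`, `NL`, `P`, `NP` holds for the corresponding classes among `DLBA`, `LBA`, `E`, `NE` relative to
every oracle; and an inclusion which fails for `L`, `NL`, `P`, `NP` fails relative to comeager
many oracles, and there a tally language witnesses this. -/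
theorem result :
    (∃ A : List Bool → Bool, ∀ κ₁ κ₂ : Kind, OracleIncl A κ₂ κ₁) ∧
    (∀ κ₁ κ₂ : Kind, LogIncl κ₂ κ₁ → ∀ A : List Bool → Bool, OracleIncl A κ₂ κ₁) ∧
    ∀ᶠ A in residual (List Bool → Bool), ∀ κ₁ κ₂ : Kind, ¬ LogIncl κ₂ κ₁ →
      ∃ L : Set (List Unit), OracleClass κ₂ A L ∧ ¬ OracleClass κ₁ A L :=
  relativizations

end Pool.Agent.Results.MP_b7da94_lc.GenericOracles
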