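import Pool.Agent.NEA73.Main

/-!
# NE and the average case: linear space relative to a class, without advice
-/

set_option autoImplicit false

namespace Pool.Agent.Results.MP_b7da94_lc.NEAverage

open H85L NEA73

/-- `κ` is the kind of `DLBA`, `LBA` or `E`, and `0 < η < 1`. Let `X` be any class of binary languages,
for example the binary languages of `NE`; if `κ` is not the kind of `DLBA`, suppose that `X` contains the
binary languages of the kind `κ`. Then `X` is contained in the class of the kind `κ` if and only if every
binary language decided in linear space relative to `X` agrees with a binary language of the kind `κ`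
(without advice), for all large `n`, on at least a fraction `1 / 2 + 2 ^ (- n ^ (1 - η))` of the words of
length `n`. -/
theorem result (κ : Kind) (h : κ.det = true ∨ κ.time = false) (η : ℝ) (h0 : 0 < η) (h1 : η < 1)
    (X : Set (List Bool) → Prop)
    (hX : (κ.det = true ∧ κ.time = false) ∨ ∀ L, LinClass κ L → X L) :
    (∀ L, X L → LinClass κ L) ↔ ∀ L, InLinSpace X L →
      ∃ (R : Set (List Bool)) (n0 : ℕ), LinClass κ R ∧ ∀ n ≥ n0,
        (1 / 2 + (2 : ℝ) ^ (-(n : ℝ) ^ (1 - η))) * 2 ^ n ≤
          ({w : Fin n → Bool | List.ofFn w ∈ L ↔ List.ofFn w ∈ R}.ncard : ℝ) :=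
  main κ h η h0 h1 X hX

end Pool.Agent.Results.MP_b7da94_lc.NEAverage
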