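import Pool.Agent.H85B.Sparse

/-!
# DLBA, LBA, E: worst case inclusions, and agreement 1/2 + 2 ^ (- n ^ (1 - η)) with sparse oracles
-/

set_option autoImplicit false

namespace Pool.Agent.Results.MP_b7da94_lc.NearHalfSparse

open H85L

/-- For any two of the classes `DLBA`, `LBA`, `E` and every real number `η` with `0 < η < 1`: the
first class is contained in the second if (and only if) every binary language `L` of the first class
has the following approximation, for all large `n` on at least a fraction `1 / 2 + 2 ^ (- n ^ (1 - η))`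
of the words of length `n`: the words of `L` are recognised by a bounded truth table reduction (in the
second class, with linear advice `adv n`) to an arbitrary set `S n` of at most `2 ^ n ^ (1 - η)` words.
The query `j` of the word `w` is given by its graph, the language `G j` (at most one `s ∈ S n` is the
query `j`), and `T b` gives the result if `b` is the set of the queries which are in `S n`. -/
theorem result (κ₁ κ₂ : Kind) (h₁ : κ₁.det = true ∨ κ₁.time = false)
    (h₂ : κ₂.det = true ∨ κ₂.time = false) (η : ℝ) (h0 : 0 < η) (h1 : η < 1) :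
    LinIncl κ₂ κ₁ ↔ ∀ L : Set (List Bool), LinClass κ₂ L →
      ∃ (k K n0 : ℕ) (adv : ∀ n, Fin n → Fin k → Bool) (S : ∀ n, Set (Fin n → Fin k → Bool))
        (G : Fin K → Set (List (Bool × (Fin k → Bool))))
        (T : Set (Fin K) → Set (List (Bool × (Fin k → Bool)))),
        (∀ j, LinClass κ₁ (G j)) ∧ (∀ b, LinClass κ₁ (T b)) ∧ ∀ n ≥ n0,
          ((S n).ncard : ℝ) ≤ 2 ^ ((n : ℝ) ^ (1 - η)) ∧
          (∀ (w : Fin n → Bool) (j : Fin K), ∀ s ∈ S n, ∀ s' ∈ S n,
            (List.ofFn fun i => (w i, s i)) ∈ G j → (List.ofFn fun i => (w i, s' i)) ∈ G j →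
              s = s') ∧
          (1 / 2 + (2 : ℝ) ^ (-(n : ℝ) ^ (1 - η))) * 2 ^ n ≤ ({w : Fin n → Bool |
            List.ofFn w ∈ L ↔ (List.ofFn fun i => (w i, adv n i)) ∈
              T {j | ∃ s ∈ S n, (List.ofFn fun i => (w i, s i)) ∈ G j}}.ncard : ℝ) :=
  LSC.incl_iff_sparse h₁ h₂ h0 h1

end Pool.Agent.Results.MP_b7da94_lc.NearHalfSparse
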