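import Pool.Agent.PRS84.Word

/-!
# DLBA, LBA, E: worst case inclusions, and distinguishing small sets from all words
-/

set_option autoImplicit false

namespace Pool.Agent.Results.MP_b7da94_lc.PseudorandomSets

open H85L

/-- For any two of the classes `DLBA`, `LBA`, `E` and every real number `η` with `0 < η < 1`: the
first class is contained in the second if (and only if) no small binary language of the first class
is pseudorandom for the second class with linear advice, in the following sense. For every binary
language `S` of the first class which has at least one and at most `2 ^ (n - n ^ (1 - η))` words of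
every length `n`, there is a language `R` of the second class with linear advice `adv n` which
distinguishes, for all large `n`, a random word of length `n` of `S` from a random word of length `n`:
the probabilities that the word is accepted by `R` differ by at least `2 ^ (- n ^ (1 - η))`. -/
theorem result (κ₁ κ₂ : Kind) (h₁ : κ₁.det = true ∨ κ₁.time = false)
    (h₂ : κ₂.det = true ∨ κ₂.time = false) (η : ℝ) (h0 : 0 < η) (h1 : η < 1) :
    LinIncl κ₂ κ₁ ↔ ∀ S : Set (List Bool), LinClass κ₂ S →
      (∀ n : ℕ, 0 < {w : Fin n → Bool | List.ofFn w ∈ S}.ncard ∧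
        ({w : Fin n → Bool | List.ofFn w ∈ S}.ncard : ℝ) ≤ 2 ^ ((n : ℝ) - (n : ℝ) ^ (1 - η))) →
      ∃ (k : ℕ) (R : Set (List (Bool × (Fin k → Bool)))) (adv : ∀ n, Fin n → Fin k → Bool) (n0 : ℕ),
        LinClass κ₁ R ∧ ∀ n ≥ n0, (2 : ℝ) ^ (-(n : ℝ) ^ (1 - η)) ≤
          |({w : Fin n → Bool | List.ofFn w ∈ S ∧
                (List.ofFn fun i => (w i, adv n i)) ∈ R}.ncard : ℝ) /
              {w : Fin n → Bool | List.ofFn w ∈ S}.ncard -
            ({w : Fin n → Bool | (List.ofFn fun i => (w i, adv n i)) ∈ R}.ncard : ℝ) / 2 ^ n| :=
  PRS84.incl_iff_pr h₁ h₂ h0 h1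

end Pool.Agent.Results.MP_b7da94_lc.PseudorandomSets
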